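import Pool.Agent.U6.VE.Stm

set_option autoImplicit false

/-! Project VE, package PH1: change of variables by power sums. -/

namespace Pool.Agent.U402.VE.PH1

open MeasureTheory Finset Polynomial Pool.Agent.U6.VE
open scoped ENNReal

lemma esymm_eq (s k : ℕ) (x y : Fin s → ℝ)
    (h : ∀ j, 1 ≤ j → j ≤ k → ∑ i, x i ^ j = ∑ i, y i ^ j) (m : ℕ) (hm : m ≤ k) :
    MvPolynomial.aeval x (MvPolynomial.esymm (Fin s) ℝ m) =
      MvPolynomial.aeval y (MvPolynomial.esymm (Fin s) ℝ m) := by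
  induction m using Nat.strong_induction_on with
  | _ m ih =>
    rcases Nat.eq_zero_or_pos m with h0 | h0
    · subst h0
      simp [MvPolynomial.esymm_zero]
    · have hx := congrArg (MvPolynomial.aeval x) (MvPolynomial.mul_esymm_eq_sum (Fin s) ℝ m)
      have hy := congrArg (MvPolynomial.aeval y) (MvPolynomial.mul_esymm_eq_sum (Fin s) ℝ m)
      simp only [map_mul, map_natCast, map_pow, map_neg, map_one, map_sum] at hx hy
      have hps : ∀ (z : Fin s → ℝ) (j : ℕ),
          MvPolynomial.aeval z (MvPolynomial.psum (Fin s) ℝ j) = ∑ i, z i ^ j := by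
        intro z j
        simp [MvPolynomial.psum]
      have hsum : ∑ a ∈ antidiagonal m with a.1 < m, (-1 : ℝ) ^ a.1 *
            MvPolynomial.aeval x (MvPolynomial.esymm (Fin s) ℝ a.1) *
              MvPolynomial.aeval x (MvPolynomial.psum (Fin s) ℝ a.2) =
          ∑ a ∈ antidiagonal m with a.1 < m, (-1 : ℝ) ^ a.1 *
            MvPolynomial.aeval y (MvPolynomial.esymm (Fin s) ℝ a.1) *
              MvPolynomial.aeval y (MvPolynomial.psum (Fin s) ℝ a.2) := by
        refine sum_congr rfl fun a ha => ?_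
        rw [mem_filter, HasAntidiagonal.mem_antidiagonal] at ha
        rw [ih a.1 ha.2 (by omega), hps, hps, h a.2 (by omega) (by omega)]
      rw [hsum] at hx
      have h2 : (m : ℝ) * MvPolynomial.aeval x (MvPolynomial.esymm (Fin s) ℝ m) =
          (m : ℝ) * MvPolynomial.aeval y (MvPolynomial.esymm (Fin s) ℝ m) := by
        rw [hx, hy]
      exact mul_left_cancel₀ (by exact_mod_cast h0.ne') h2

lemma coeff_prod (s : ℕ) (x : Fin s → ℝ) (m : ℕ) (hm : m ≤ s) :
    (∏ i, ((X : ℝ[X]) - C (x i))).coeff m =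
      (-1) ^ (s - m) * MvPolynomial.aeval x (MvPolynomial.esymm (Fin s) ℝ (s - m)) := by
  have hc : Multiset.card (univ.val.map x) = s := by simp
  have h := Multiset.prod_X_sub_C_coeff (univ.val.map x) (k := m) (by rw [hc]; exact hm)
  rw [hc] at h
  rw [MvPolynomial.aeval_esymm_eq_multiset_esymm, ← h, Multiset.map_map]
  rfl

lemma coeff_prod_gt (s : ℕ) (x : Fin s → ℝ) (m : ℕ) (hm : s < m) :
    (∏ i, ((X : ℝ[X]) - C (x i))).coeff m = 0 := by
  apply coeff_eq_zero_of_natDegree_lt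
  have h := natDegree_finsetProd_X_sub_C_eq_card (univ : Finset (Fin s)) x
  rw [h, card_univ, Fintype.card_fin]
  exact hm

lemma prod_eq (k : ℕ) (x y : Fin k → ℝ)
    (h : ∀ j, 1 ≤ j → j ≤ k → ∑ i, x i ^ j = ∑ i, y i ^ j) :
    (∏ i, ((X : ℝ[X]) - C (x i))) = ∏ i, ((X : ℝ[X]) - C (y i)) := by
  ext m
  rcases le_or_gt m k with h1 | h1
  · rw [coeff_prod k x m h1, coeff_prod k y m h1, esymm_eq k k x y h (k - m) (by omega)]
  · rw [coeff_prod_gt k x m h1, coeff_prod_gt k y m h1]

lemma range_sub (k : ℕ) (x y : Fin k → ℝ)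
    (h : ∀ j, 1 ≤ j → j ≤ k → ∑ i, x i ^ j = ∑ i, y i ^ j) : Set.range x ⊆ Set.range y := by
  rintro _ ⟨i, rfl⟩
  have h1 := congrArg (Polynomial.eval (x i)) (prod_eq k x y h)
  rw [Polynomial.eval_prod, Polynomial.eval_prod, Finset.prod_eq_zero (mem_univ i) (by simp)] at h1
  obtain ⟨j, _, hj⟩ := Finset.prod_eq_zero_iff.mp h1.symm
  simp only [eval_sub, eval_X, eval_C] at hj
  exact ⟨j, by linarith⟩

/-- the power sum map -/
noncomputable def pw (k : ℕ) (t : Fin k → ℝ) : Fin k → ℝ := fun j => ∑ i, t i ^ (j.val + 1)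

lemma pw_inj (k : ℕ) (σ : Equiv.Perm (Fin k)) (x y : Fin k → ℝ) (hx : StrictMono (x ∘ σ))
    (hy : StrictMono (y ∘ σ)) (h : pw k x = pw k y) : x = y := by
  have hh : ∀ j, 1 ≤ j → j ≤ k → ∑ i, x i ^ j = ∑ i, y i ^ j := by
    intro j h1 h2
    have := congrFun h ⟨j - 1, by omega⟩
    simp only [pw] at this
    rwa [show j - 1 + 1 = j by omega] at this
  have hr : Set.range x = Set.range y :=
    Set.Subset.antisymm (range_sub k x y hh) (range_sub k y x fun j h1 h2 => (hh j h1 h2).symm)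
  have hr2 : Set.range (x ∘ σ) = Set.range (y ∘ σ) := by
    rw [EquivLike.range_comp x σ, EquivLike.range_comp y σ, hr]
  have h3 := (StrictMono.range_inj hx hy).mp hr2
  funext i
  have := congrFun h3 (σ.symm i)
  simpa using this

/-- its derivative -/
noncomputable def dpw (k : ℕ) (t : Fin k → ℝ) : (Fin k → ℝ) →L[ℝ] (Fin k → ℝ) :=
  ContinuousLinearMap.pi fun j => ∑ i, (((j.val + 1 : ℕ) : ℝ) * t i ^ j.val) •
    (ContinuousLinearMap.proj i : (Fin k → ℝ) →L[ℝ] ℝ)

lemma hasF (k : ℕ) (t : Fin k → ℝ) : HasFDerivAt (pw k) (dpw k t) t := by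
  rw [hasFDerivAt_pi']
  intro j
  have h1 : HasFDerivAt (fun t : Fin k → ℝ => ∑ i, t i ^ (j.val + 1))
      (∑ i, (((j.val + 1 : ℕ) : ℝ) * t i ^ j.val) •
        (ContinuousLinearMap.proj i : (Fin k → ℝ) →L[ℝ] ℝ)) t := by
    apply HasFDerivAt.fun_sum
    intro i _
    have h2 := (hasFDerivAt_apply (𝕜 := ℝ) (F' := fun _ : Fin k => ℝ) i t).pow (j.val + 1)
    simpa using h2
  exact h1

lemma det_eq (k : ℕ) (t : Fin k → ℝ) : |(dpw k t).det| = (k.factorial : ℝ) * vd t := by
  have h1 : (dpw k t).det = (LinearMap.toMatrix' (dpw k t : (Fin k → ℝ) →ₗ[ℝ] (Fin k → ℝ))).det := by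
    rw [LinearMap.det_toMatrix']
  have h2 : LinearMap.toMatrix' (dpw k t : (Fin k → ℝ) →ₗ[ℝ] (Fin k → ℝ)) =
      Matrix.of fun j i => ((j.val + 1 : ℕ) : ℝ) * (Matrix.vandermonde t).transpose j i := by
    ext j i
    simp [LinearMap.toMatrix'_apply, dpw, Matrix.vandermonde, Matrix.transpose, Pi.single_apply]
  rw [h1, h2, Matrix.det_mul_column, Matrix.det_transpose, Matrix.det_vandermonde, abs_mul,
    Finset.abs_prod, Finset.abs_prod]
  congr 1
  · rw [Fin.prod_univ_eq_prod_range (fun i => |((i + 1 : ℕ) : ℝ)|) k,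
      ← Finset.prod_range_add_one_eq_factorial]
    push_cast
    refine Finset.prod_congr rfl fun i _ => ?_
    exact abs_of_nonneg (by positivity)
  · unfold vd
    refine Finset.prod_congr rfl fun i _ => ?_
    rw [Finset.abs_prod]

lemma vd_cont (k : ℕ) : Continuous (vd : (Fin k → ℝ) → ℝ) := by
  unfold vd
  fun_prop

lemma meas (k : ℕ) (m : ℝ) (u : Fin k → ℝ) (σ : Equiv.Perm (Fin k)) :
    MeasurableSet {t : Fin k → ℝ | (m ≤ vd t ∧ ∀ j : Fin k, |∑ i, t i ^ (j.val + 1) - u j| < 1) ∧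
      StrictMono (t ∘ σ)} := by
  have e : {t : Fin k → ℝ | (m ≤ vd t ∧ ∀ j : Fin k, |∑ i, t i ^ (j.val + 1) - u j| < 1) ∧
      StrictMono (t ∘ σ)} = ({t | m ≤ vd t} ∩ ⋂ j : Fin k,
        {t : Fin k → ℝ | |∑ i, t i ^ (j.val + 1) - u j| < 1}) ∩
        ⋂ i : Fin k, ⋂ j : Fin k, ⋂ _ : i < j, {t : Fin k → ℝ | t (σ i) < t (σ j)} := by
    ext t
    simp only [Set.mem_ofPred_eq, Set.mem_inter_iff, Set.mem_iInter, StrictMono, Function.comp]
  rw [e]
  refine MeasurableSet.inter (MeasurableSet.inter ?_ ?_) ?_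
  · exact measurableSet_le measurable_const (vd_cont k).measurable
  · refine MeasurableSet.iInter fun j => measurableSet_lt ?_ measurable_const
    fun_prop
  · refine MeasurableSet.iInter fun i => MeasurableSet.iInter fun j => MeasurableSet.iInter fun _ =>
      measurableSet_lt ?_ ?_
    · exact measurable_pi_apply _
    · exact measurable_pi_apply _

lemma piece (k : ℕ) (m : ℝ) (u : Fin k → ℝ) (hm : 0 < m) (σ : Equiv.Perm (Fin k)) :
    volume {t : Fin k → ℝ | (m ≤ vd t ∧ ∀ j : Fin k, |∑ i, t i ^ (j.val + 1) - u j| < 1) ∧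
      StrictMono (t ∘ σ)} ≤ ENNReal.ofReal (2 ^ k / (k.factorial * m)) := by
  set T := {t : Fin k → ℝ | (m ≤ vd t ∧ ∀ j : Fin k, |∑ i, t i ^ (j.val + 1) - u j| < 1) ∧
      StrictMono (t ∘ σ)} with hT
  have hTm : MeasurableSet T := meas k m u σ
  have hkm : (0 : ℝ) < k.factorial * m := by positivity
  have h1 : ENNReal.ofReal (k.factorial * m) * volume T ≤ ENNReal.ofReal (2 ^ k) := by
    calc ENNReal.ofReal (k.factorial * m) * volume T
        = ∫⁻ _ in T, ENNReal.ofReal (k.factorial * m) := by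
          rw [setLIntegral_const]
      _ ≤ ∫⁻ t in T, ENNReal.ofReal |(dpw k t).det| := by
          refine setLIntegral_mono' hTm fun t ht => ENNReal.ofReal_le_ofReal ?_
          rw [det_eq]
          exact mul_le_mul_of_nonneg_left ht.1.1 (by positivity)
      _ = volume (pw k '' T) := by
          refine lintegral_abs_det_fderiv_eq_addHaar_image volume hTm
            (fun t _ => (hasF k t).hasFDerivWithinAt) ?_
          intro x hx y hy hxy
          exact pw_inj k σ x y hx.2 hy.2 hxy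
      _ ≤ volume (Set.pi Set.univ fun j : Fin k => Set.Ioo (u j - 1) (u j + 1)) := by
          refine measure_mono ?_
          rintro _ ⟨t, ht, rfl⟩ j _
          have := abs_lt.mp (ht.1.2 j)
          simp only [pw, Set.mem_Ioo]
          constructor <;> linarith [this.1, this.2]
      _ = ENNReal.ofReal (2 ^ k) := by
          rw [Real.volume_pi_Ioo]
          have : ∀ j : Fin k, u j + 1 - (u j - 1) = 2 := fun j => by ring
          simp only [this, Finset.prod_const, Finset.card_univ, Fintype.card_fin]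
          rw [ENNReal.ofReal_pow (by norm_num)]
  rw [ENNReal.ofReal_div_of_pos hkm, ENNReal.le_div_iff_mul_le
    (Or.inl (ENNReal.ofReal_pos.mpr hkm).ne') (Or.inl ENNReal.ofReal_ne_top), mul_comm]
  exact h1

theorem t_PH1 : T_PH1 := by
  intro k m u hm
  have hsub : {t : Fin k → ℝ | m ≤ vd t ∧ ∀ j : Fin k, |∑ i, t i ^ (j.val + 1) - u j| < 1} ⊆
      ⋃ σ : Equiv.Perm (Fin k), {t : Fin k → ℝ |
        (m ≤ vd t ∧ ∀ j : Fin k, |∑ i, t i ^ (j.val + 1) - u j| < 1) ∧ StrictMono (t ∘ σ)} := by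
    intro t ht
    rw [Set.mem_iUnion]
    refine ⟨Tuple.sort t, ht, (Tuple.monotone_sort t).strictMono_of_injective ?_⟩
    refine Function.Injective.comp ?_ (Tuple.sort t).injective
    have hlt : ∀ i j : Fin k, i < j → t i ≠ t j := by
      intro i j hij he
      have : vd t = 0 := by
        unfold vd
        refine Finset.prod_eq_zero (mem_univ i) (Finset.prod_eq_zero (i := j) (by simpa using hij) ?_)
        rw [he]; simp
      have := ht.1
      linarith
    intro i j hij
    rcases lt_trichotomy i j with h | h | h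
    · exact absurd hij (hlt i j h)
    · exact h
    · exact absurd hij.symm (hlt j i h)
  calc volume {t : Fin k → ℝ | m ≤ vd t ∧ ∀ j : Fin k, |∑ i, t i ^ (j.val + 1) - u j| < 1}
      ≤ volume (⋃ σ : Equiv.Perm (Fin k), {t : Fin k → ℝ |
        (m ≤ vd t ∧ ∀ j : Fin k, |∑ i, t i ^ (j.val + 1) - u j| < 1) ∧ StrictMono (t ∘ σ)}) :=
        measure_mono hsub
    _ ≤ ∑ σ : Equiv.Perm (Fin k), volume {t : Fin k → ℝ |
        (m ≤ vd t ∧ ∀ j : Fin k, |∑ i, t i ^ (j.val + 1) - u j| < 1) ∧ StrictMono (t ∘ σ)} :=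
        measure_iUnion_fintype_le _ _
    _ ≤ ∑ _σ : Equiv.Perm (Fin k), ENNReal.ofReal (2 ^ k / (k.factorial * m)) :=
        Finset.sum_le_sum fun σ _ => piece k m u hm σ
    _ = ENNReal.ofReal (2 ^ k / m) := by
        rw [Finset.sum_const, Finset.card_univ, Fintype.card_perm, Fintype.card_fin, nsmul_eq_mul,
          ← ENNReal.ofReal_natCast, ← ENNReal.ofReal_mul (by positivity)]
        congr 1
        have : (k.factorial : ℝ) ≠ 0 := by positivity
        field_simp

end Pool.Agent.U402.VE.PH1
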